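import Pool.Agent.N741.HB.Stm3
import Pool.Agent.Y884.GN.A

/-!
# The determinant method for systems of equations and vectors of functions

Project HC of helper741, part HC/1 (statement `S_detV` of `Pool.Agent.N741.HB.Stm3`), by helper273.
The proof follows `Pool.Agent.Y884.GN.A` and `Pool.Agent.N27.HB.Det`.
-/

set_option autoImplicit false

namespace Pool.Agent.N273.HC

open Finset MvPolynomial Pool.Agent.Y902.FB Pool.Agent.Y902.GN Pool.Agent.Y884.GN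

/-- auxiliary functions for several families at the same time -/
theorem auxV {σ ι M : Type*} [Fintype σ] [DecidableEq σ] [Fintype ι] [DecidableEq ι] [Fintype M]
    {κ : ℕ} (q r B : ℕ) (hq : 2 ≤ q) (P : σ → ℤ) (k : ι → σ) (p : σ → MvPolynomial ι ℤ)
    (Ω : Set (σ → ℤ))
    (hΩ1 : ∀ t ∈ Ω, ∀ i, (q : ℤ) ∣ t i - P i)
    (hΩ2 : ∀ t ∈ Ω, ∀ i, (q : ℤ) ^ r ∣ t i - eval (fun x => t (k x) - P (k x)) (p i))
    (f : M → Fin κ → MvPolynomial σ ℤ)
    (hcard : q ^ (κ * r ^ (Fintype.card ι + 1)) < (B + 1) ^ (Fintype.card M)) :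
    ∃ c : M → ℤ, c ≠ 0 ∧ (∀ e, |c e| ≤ B) ∧
      ∀ t ∈ Ω, ∀ l, (q : ℤ) ^ r ∣ ∑ e, c e * eval t (f e l) := by
  classical
  have hφ := fun (e : M) (l : Fin κ) => expand_mod (q : ℤ) r (bind₁ p (f e l))
  choose φ hφ using hφ
  have g1 : ∀ (t : ι → Fin r) (ω : Ω), (q : ℤ) ^ (∑ i, (t i : ℕ)) ∣
      ∏ i, ((ω : σ → ℤ) (k i) - P (k i)) ^ (t i : ℕ) := by
    intro t ω
    rw [← Finset.prod_pow_eq_pow_sum]
    exact Finset.prod_dvd_prod_of_dvd _ _ fun i _ => pow_dvd_pow_of_dvd (hΩ1 ω ω.2 (k i)) _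
  have g2 : ∀ (e : M) (l : Fin κ) (ω : Ω), (q : ℤ) ^ r ∣ eval (ω : σ → ℤ) (f e l) -
      ∑ t : ι → Fin r, φ e l t * ∏ i, ((ω : σ → ℤ) (k i) - P (k i)) ^ (t i : ℕ) := by
    intro e l ω
    have h1 := hφ e l (fun i => (ω : σ → ℤ) (k i) - P (k i)) (fun i => hΩ1 ω ω.2 (k i))
    have h2 : (q : ℤ) ^ r ∣ eval (ω : σ → ℤ) (f e l) -
        eval (fun i => (ω : σ → ℤ) (k i) - P (k i)) (bind₁ p (f e l)) := by
      have h3 := eval_congr_dvd ((q : ℤ) ^ r) (f e l) (ω : σ → ℤ)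
        (fun a => eval (fun i => (ω : σ → ℤ) (k i) - P (k i)) (p a)) (fun a => hΩ2 ω ω.2 a)
      have h4 : eval (fun i => (ω : σ → ℤ) (k i) - P (k i)) (bind₁ p (f e l)) =
          eval (fun a => eval (fun i => (ω : σ → ℤ) (k i) - P (k i)) (p a)) (f e l) := by
        rw [eval, eval₂Hom_bind₁]
        rfl
      rw [h4]; exact h3
    have h5 := dvd_add h2 h1
    rwa [sub_add_sub_cancel] at h5
  have g3 : q ^ (∑ t : Fin κ × (ι → Fin r), (r - ∑ i, (t.2 i : ℕ))) <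
      (B + 1) ^ (Fintype.card M) := by
    refine lt_of_le_of_lt (Nat.pow_le_pow_right (by omega) ?_) hcard
    calc ∑ t : Fin κ × (ι → Fin r), (r - ∑ i, (t.2 i : ℕ)) ≤ ∑ _t : Fin κ × (ι → Fin r), r :=
          Finset.sum_le_sum fun t _ => Nat.sub_le _ _
      _ = κ * r ^ (Fintype.card ι + 1) := by
          rw [Finset.sum_const, Finset.card_univ, Fintype.card_prod, Fintype.card_fun,
            Fintype.card_fin, Fintype.card_fin, smul_eq_mul, pow_succ]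
          ring
  obtain ⟨c, hc0, hc1, hc2⟩ := pigeon (Ω := Fin κ × Ω) (M := M) (T := Fin κ × (ι → Fin r)) q r B hq
    (fun t => ∑ i, (t.2 i : ℕ))
    (fun t ω => if t.1 = ω.1 then
      ∏ i, ((ω.2 : σ → ℤ) (k i) - P (k i)) ^ (t.2 i : ℕ) else 0)
    (fun t ω => by
      by_cases h : t.1 = ω.1
      · simp only [if_pos h]
        exact g1 t.2 ω.2
      · simp only [if_neg h]
        exact dvd_zero _)
    (fun e ω => eval (ω.2 : σ → ℤ) (f e ω.1)) (fun e t => φ e t.1 t.2)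
    (fun e ω => by
      have h := g2 e ω.1 ω.2
      rw [Fintype.sum_prod_type]
      have h6 : ∑ l : Fin κ, ∑ t : ι → Fin r, φ e l t *
          (if l = ω.1 then ∏ i, ((ω.2 : σ → ℤ) (k i) - P (k i)) ^ (t i : ℕ) else 0) =
          ∑ t : ι → Fin r, φ e ω.1 t * ∏ i, ((ω.2 : σ → ℤ) (k i) - P (k i)) ^ (t i : ℕ) := by
        rw [Finset.sum_eq_single ω.1]
        · simp
        · intro l _ hl
          simp [hl]
        · intro h
          exact absurd (Finset.mem_univ _) h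
      rw [h6]
      exact h) g3
  exact ⟨c, hc0, hc1, fun t ht l => hc2 (l, ⟨t, ht⟩)⟩

/-- auxiliary functions vanish when the values are small -/
theorem vanishV {σ ι M : Type*} [Fintype σ] [DecidableEq σ] [Fintype ι] [DecidableEq ι] [Fintype M]
    [Nonempty M] {κ : ℕ} (q ρ V : ℕ) (hq : 2 ≤ q) (P : σ → ℤ) (k : ι → σ)
    (p : σ → MvPolynomial ι ℤ) (Ω : Set (σ → ℤ))
    (hΩ1 : ∀ t ∈ Ω, ∀ i, (q : ℤ) ∣ t i - P i)
    (hΩ2 : ∀ t ∈ Ω, ∀ i, (q : ℤ) ^ (2 * ρ) ∣ t i - eval (fun x => t (k x) - P (k x)) (p i))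
    (f : M → Fin κ → MvPolynomial σ ℤ)
    (hcard : κ * (2 * ρ) ^ (Fintype.card ι + 1) ≤ ρ * Fintype.card M)
    (hV : ∀ t ∈ Ω, ∀ e l, |eval t (f e l)| ≤ V) (hbig : Fintype.card M * V < q ^ ρ) :
    ∃ c : M → ℤ, c ≠ 0 ∧ (∀ e, |c e| ≤ ((q ^ ρ : ℕ) : ℤ)) ∧
      ∀ t ∈ Ω, ∀ l, ∑ e, c e * eval t (f e l) = 0 := by
  have hlt : q ^ (κ * (2 * ρ) ^ (Fintype.card ι + 1)) < (q ^ ρ + 1) ^ (Fintype.card M) := by
    calc q ^ (κ * (2 * ρ) ^ (Fintype.card ι + 1)) ≤ q ^ (ρ * Fintype.card M) :=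
          Nat.pow_le_pow_right (by omega) hcard
      _ = (q ^ ρ) ^ (Fintype.card M) := by rw [pow_mul]
      _ < _ := Nat.pow_lt_pow_left (Nat.lt_succ_self _) Fintype.card_ne_zero
  obtain ⟨c, hc0, hc1, hc2⟩ := auxV q (2 * ρ) (q ^ ρ) hq P k p Ω hΩ1 hΩ2 f hlt
  refine ⟨c, hc0, hc1, fun t ht l => ?_⟩
  refine Int.eq_zero_of_abs_lt_dvd (hc2 t ht l) ?_
  have h1 : |∑ e, c e * eval t (f e l)| ≤ ∑ _e : M, (((q ^ ρ : ℕ) : ℤ) * V) := by
    refine (Finset.abs_sum_le_sum_abs _ _).trans (Finset.sum_le_sum fun e _ => ?_)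
    rw [abs_mul]
    exact mul_le_mul (hc1 e) (hV t ht e l) (abs_nonneg _) (by positivity)
  refine lt_of_le_of_lt h1 ?_
  rw [Finset.sum_const, Finset.card_univ, nsmul_eq_mul]
  have h2 : Fintype.card M * (q ^ ρ * V) < q ^ (2 * ρ) := by
    have e1 : Fintype.card M * (q ^ ρ * V) = (Fintype.card M * V) * q ^ ρ := by ring
    rw [e1, two_mul, pow_add]
    exact Nat.mul_lt_mul_of_pos_right hbig (Nat.pow_pos (by omega))
  exact_mod_cast h2

/-- the Jacobian matrix with respect to the variables `Sum.inr` -/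
noncomputable def Jm {d : ℕ} {τ : Type} (F : τ → MvPolynomial (Fin d ⊕ τ) ℤ)
    (P : Fin d ⊕ τ → ℤ) : Matrix τ τ ℤ :=
  Matrix.of fun i j => eval P (pderiv (Sum.inr j) (F i))

/-- a system of equations near a point where the Jacobian determinant is a unit -/
theorem param {d : ℕ} {τ : Type} [Fintype τ] [DecidableEq τ] {q : ℕ} (hq : q.Prime)
    (F : τ → MvPolynomial (Fin d ⊕ τ) ℤ) (P : Fin d ⊕ τ → ℤ)
    (hJ : ¬ (q : ℤ) ∣ (Jm F P).det) (r : ℕ) :
    ∃ p : Fin d ⊕ τ → MvPolynomial (Fin d) ℤ, ∀ t : Fin d ⊕ τ → ℤ,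
      (∀ i, (q : ℤ) ∣ t i - P i) → (∀ i, eval t (F i) = 0) →
      ∀ i, (q : ℤ) ^ r ∣ t i - eval (fun x => t (Sum.inl x) - P (Sum.inl x)) (p i) := by
  obtain ⟨ν, hν⟩ := exists_inv hq hJ
  set m : Fin d ⊕ τ → τ → ℤ := fun a s => Sum.elim (fun _ => 0)
    (fun a' => ν * (Jm F P).adjugate a' s) a with hm
  have g1 : ∀ a, a ∉ Set.range (Sum.inl : Fin d → Fin d ⊕ τ) → ∀ b,
      b ∉ Set.range (Sum.inl : Fin d → Fin d ⊕ τ) →
      (q : ℤ) ∣ (∑ s, m a s * eval P (pderiv b (F s))) - if a = b then 1 else 0 := by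
    intro a ha b hb
    rcases a with a | a
    · exact absurd ⟨a, rfl⟩ ha
    rcases b with b | b
    · exact absurd ⟨b, rfl⟩ hb
    have e1 : ∑ s, m (Sum.inr a) s * eval P (pderiv (Sum.inr b) (F s)) =
        ν * ((Jm F P).adjugate * Jm F P) a b := by
      rw [Matrix.mul_apply, Finset.mul_sum]
      refine Finset.sum_congr rfl fun s _ => ?_
      simp only [hm, Sum.elim_inr, Jm, Matrix.of_apply]
      ring
    rw [e1, Matrix.adjugate_mul, Matrix.smul_apply, smul_eq_mul]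
    by_cases hab : a = b
    · subst hab
      rw [Matrix.one_apply_eq, mul_one, if_pos rfl]
      exact hν
    · rw [Matrix.one_apply_ne hab, if_neg (fun h => hab (Sum.inr_injective h))]
      simp
  have g2 : ∀ x ∈ Set.range (Sum.inl : Fin d → Fin d ⊕ τ), ∀ s : τ, m x s = 0 := by
    rintro x ⟨y, rfl⟩ s
    rfl
  obtain ⟨p, -, hp⟩ := newton (S := τ) (q : ℤ) F m Sum.inl P r g1 g2
  refine ⟨p, fun t ht hF i => hp t ht (fun s => ?_) i⟩
  rw [hF s]
  exact dvd_zero _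

/-- the numerical condition -/
theorem numV {d k κ I m ρ : ℕ} (hI : 2 * κ * (2 * (k * d + 3)) ^ d ≤ I) (hm : 1 ≤ m)
    (hρ : ρ = (k * d + 1) * m + 2) : κ * (2 * ρ) ^ (d + 1) ≤ ρ * (m ^ d * I) := by
  have h1 : ρ ≤ (k * d + 3) * m := by
    rw [hρ]
    nlinarith [Nat.zero_le (k * d), Nat.zero_le m]
  have h2 : (2 * ρ) ^ d ≤ (2 * ((k * d + 3) * m)) ^ d := Nat.pow_le_pow_left (by omega) _
  calc κ * (2 * ρ) ^ (d + 1) = ρ * (2 * κ * (2 * ρ) ^ d) := by rw [pow_succ]; ring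
    _ ≤ ρ * (2 * κ * (2 * ((k * d + 3) * m)) ^ d) := by gcongr
    _ = ρ * (m ^ d * (2 * κ * (2 * (k * d + 3)) ^ d)) := by
        rw [← mul_assoc 2 (k * d + 3) m, mul_pow _ m]
        ring
    _ ≤ _ := by gcongr

/-- one residue class -/
theorem clsV {d k κ X Y W I ρ q : ℕ} (hI : 2 * κ * (2 * (k * d + 3)) ^ d ≤ I) (hI1 : 1 ≤ I)
    (hρ : ρ = (k * d + 1) * (I * W) + 2) (hX : I * (I * W) ^ d ≤ X) (hW : 1 ≤ W)
    (hX1 : 2 ≤ X) (hY : 1 ≤ Y) (hYX : Y ≤ X ^ k) (hq : q.Prime)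
    (hXq : X ≤ q) {τ : Type} [Fintype τ] [DecidableEq τ]
    (F : τ → MvPolynomial (Fin d ⊕ τ) ℤ) (g : Fin I → Fin κ → MvPolynomial (Fin d ⊕ τ) ℤ)
    (P : Fin d ⊕ τ → ℤ) (Ω : Set (Fin d ⊕ τ → ℤ))
    (hP : ¬ (q : ℤ) ∣ (Jm F P).det)
    (hΩP : ∀ t ∈ Ω, ∀ i, (q : ℤ) ∣ t i - P i)
    (hΩ : ∀ t ∈ Ω, (∀ i, eval t (F i) = 0) ∧ (∀ b, |t (Sum.inl b)| ≤ (Y : ℤ)) ∧
      ∀ j l, |eval t (g j l)| ≤ (X : ℤ) ^ W) :
    ∃ c : (Fin d → Fin (I * W)) × Fin I → ℤ, c ≠ 0 ∧ (∀ e, |c e| ≤ ((q ^ ρ : ℕ) : ℤ)) ∧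
      ∀ t ∈ Ω, ∀ l, ∑ e, c e * ((∏ b, t (Sum.inl b) ^ (e.1 b : ℕ)) * eval t (g e.2 l)) = 0 := by
  have hq2 : 2 ≤ q := hq.two_le
  have hm : 1 ≤ I * W := Nat.one_le_iff_ne_zero.2 (by positivity)
  obtain ⟨p, hp⟩ := param hq F P hP (2 * ρ)
  have hcM : Fintype.card ((Fin d → Fin (I * W)) × Fin I) = (I * W) ^ d * I := by
    rw [Fintype.card_prod, Fintype.card_fun, Fintype.card_fin, Fintype.card_fin, Fintype.card_fin]
  have : Nonempty ((Fin d → Fin (I * W)) × Fin I) :=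
    ⟨(fun _ => ⟨0, by omega⟩, ⟨0, by omega⟩)⟩
  obtain ⟨c, hc0, hc1, hc2⟩ := vanishV (M := (Fin d → Fin (I * W)) × Fin I) q ρ
    (X ^ ((k * d + 1) * (I * W))) hq2 P Sum.inl p Ω hΩP
    (fun t ht => hp t (hΩP t ht) (hΩ t ht).1)
    (fun e l => (∏ b, MvPolynomial.X (Sum.inl b) ^ (e.1 b : ℕ)) * g e.2 l)
    (by
      rw [hcM, Fintype.card_fin]
      exact numV hI hm hρ)
    (fun t ht e l => by
      obtain ⟨-, g1, g2⟩ := hΩ t ht
      rw [map_mul, map_prod, abs_mul, Finset.abs_prod]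
      have e1 : ∏ b, |eval t (MvPolynomial.X (Sum.inl b) ^ (e.1 b : ℕ))| ≤
          ((X ^ (k * d * (I * W)) : ℕ) : ℤ) := by
        calc ∏ b, |eval t (MvPolynomial.X (Sum.inl b) ^ (e.1 b : ℕ))|
            ≤ ∏ _b : Fin d, ((Y ^ (I * W) : ℕ) : ℤ) :=
              Finset.prod_le_prod (fun i _ => abs_nonneg _) fun b _ => by
                rw [map_pow, eval_X]
                exact abs_pow_le_pow (g1 b) hY (by have := (e.1 b).2; omega)
          _ = (((Y ^ (I * W)) ^ d : ℕ) : ℤ) := by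
              rw [Finset.prod_const, Finset.card_univ, Fintype.card_fin]
              push_cast
              ring
          _ ≤ _ := by
              norm_cast
              calc (Y ^ (I * W)) ^ d ≤ ((X ^ k) ^ (I * W)) ^ d := by gcongr
                _ = X ^ (k * d * (I * W)) := by
                    rw [← pow_mul, ← pow_mul]
                    congr 1
                    ring
      have e2 : |eval t (g e.2 l)| ≤ ((X ^ (I * W) : ℕ) : ℤ) := by
        refine (g2 e.2 l).trans ?_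
        have : X ^ W ≤ X ^ (I * W) := Nat.pow_le_pow_right (by omega)
          (Nat.le_mul_of_pos_left _ (by omega))
        exact_mod_cast this
      calc _ ≤ ((X ^ (k * d * (I * W)) : ℕ) : ℤ) * ((X ^ (I * W) : ℕ) : ℤ) :=
            mul_le_mul e1 e2 (abs_nonneg _) (by positivity)
        _ = _ := by
            norm_cast
            rw [← pow_add]
            congr 1
            ring)
    (by
      rw [hcM, hρ]
      calc (I * W) ^ d * I * X ^ ((k * d + 1) * (I * W)) ≤ q * q ^ ((k * d + 1) * (I * W)) :=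
            Nat.mul_le_mul ((by rw [mul_comm]; exact hX : (I * W) ^ d * I ≤ X).trans hXq)
              (Nat.pow_le_pow_left hXq _)
        _ = q ^ ((k * d + 1) * (I * W) + 1) := by rw [pow_succ]; ring
        _ < q ^ ((k * d + 1) * (I * W) + 2) := Nat.pow_lt_pow_right (by omega) (by omega))
  refine ⟨c, hc0, hc1, fun t ht l => ?_⟩
  have := hc2 t ht l
  simpa only [map_prod, map_pow, eval_X, map_mul] using this

/-- **HC/1.** -/
theorem detV : Pool.Agent.N741.HC.S_detV := by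
  intro d k κ
  obtain ⟨I, hI⟩ : ∃ I, I = 2 * κ * (2 * (k * d + 3)) ^ d + 1 := ⟨_, rfl⟩
  have hI1 : 1 ≤ I := by omega
  refine ⟨I, 2 * (k * d + 3) * I, 1000000, hI1, ?_⟩
  intro X Y W hX hY hYX hW hIX τ _ _ F g α T s z hT
  classical
  obtain ⟨ρ, hρ⟩ : ∃ ρ, ρ = (k * d + 1) * (I * W) + 2 := ⟨_, rfl⟩
  have hm : 1 ≤ I * W := Nat.one_le_iff_ne_zero.2 (by positivity)
  rcases T.eq_empty_or_nonempty with rfl | hne
  · refine ⟨∅, subset_rfl, by simp, fun _ _ => 1, ?_, fun e l => ?_, by simp⟩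
    · intro h
      have := congrFun (congrFun h (fun _ => ⟨0, by omega⟩)) ⟨0, by omega⟩
      simp at this
    · rw [abs_one]
      have : (1 : ℤ) ≤ (X : ℤ) := by exact_mod_cast (by omega : 1 ≤ X)
      exact one_le_pow₀ this
  obtain ⟨Q, hQ1, hQ2, hQ⟩ := Pool.Agent.Y902.FD.many_primes X hX
  set s' : α → Fin d ⊕ τ → ℤ := fun t => Sum.elim (s t) (z t) with hs'
  have hex : ∀ t, ∃ q, t ∈ T → q ∈ Q ∧ ¬ (q : ℤ) ∣ (Jm F (s' t)).det := by
    intro t
    by_cases ht : t ∈ T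
    · obtain ⟨-, -, -, h1, h2⟩ := hT t ht
      obtain ⟨q, hq, h⟩ := exists_prime_not_dvd Q (fun q hq => (hQ q hq).1) X
        (fun q hq => (hQ q hq).2.1) _ h1 (lt_of_lt_of_le h2 (by
          have g1 : (2 : ℤ) ^ X ≤ (X : ℤ) ^ X :=
            pow_le_pow_left₀ (by norm_num) (by exact_mod_cast (by omega : 2 ≤ X)) _
          have g2 : (X : ℤ) ^ X ≤ (X : ℤ) ^ Q.card :=
            pow_le_pow_right₀ (by exact_mod_cast (by omega : 1 ≤ X)) hQ1
          exact g1.trans g2))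
      exact ⟨q, fun _ => ⟨hq, h⟩⟩
    · exact ⟨0, fun h => absurd h ht⟩
  choose qq hqq using hex
  have hX0 : 0 < X ^ 2 := by positivity
  -- the classes
  let G : α → ℕ × (Fin d ⊕ τ → Fin (X ^ 2)) := fun t =>
    (qq t, fun o => ⟨((s' t o) % (qq t : ℤ)).toNat % X ^ 2, Nat.mod_lt _ hX0⟩)
  obtain ⟨c0, hc0, hmax⟩ := Finset.exists_max_image (T.image G)
    (fun c => (T.filter fun t => G t = c).card) (hne.image G)
  have h1 := Finset.card_le_mul_card_image (f := G) T (T.filter fun t => G t = c0).card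
    (fun b hb => hmax b hb)
  have h2 : (T.image G).card ≤ X ^ (2 * (d + Fintype.card τ) + 3) := by
    have h3 : T.image G ⊆ Q ×ˢ (Finset.univ : Finset (Fin d ⊕ τ → Fin (X ^ 2))) := by
      intro c hc
      obtain ⟨t, ht, rfl⟩ := Finset.mem_image.1 hc
      exact Finset.mem_product.2 ⟨(hqq t ht).1, Finset.mem_univ _⟩
    refine (Finset.card_le_card h3).trans ?_
    rw [Finset.card_product, Finset.card_univ, Fintype.card_fun, Fintype.card_sum,
      Fintype.card_fin, Fintype.card_fin]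
    calc Q.card * (X ^ 2) ^ (d + Fintype.card τ) ≤ X ^ 3 * (X ^ 2) ^ (d + Fintype.card τ) :=
          Nat.mul_le_mul_right _ hQ2
      _ = X ^ (2 * (d + Fintype.card τ) + 3) := by
        rw [← pow_mul, ← pow_add]
        congr 1
        ring
  refine ⟨T.filter fun t => G t = c0, Finset.filter_subset _ _, ?_, ?_⟩
  · refine h1.trans ?_
    rw [mul_comm]
    exact Nat.mul_le_mul_right _ h2
  obtain ⟨t0, ht0, rfl⟩ := Finset.mem_image.1 hc0
  obtain ⟨hq1, hq2⟩ := hqq t0 ht0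
  obtain ⟨hq3, hq4, hq5⟩ := hQ _ hq1
  have hres : ∀ t ∈ T, G t = G t0 → ∀ i, (qq t0 : ℤ) ∣ s' t i - s' t0 i := by
    intro t ht hF i
    have e1 : qq t = qq t0 := congrArg Prod.fst hF
    have e2 := congrFun (congrArg Prod.snd hF) i
    have e3 : ((s' t i) % (qq t : ℤ)).toNat % X ^ 2 = ((s' t0 i) % (qq t0 : ℤ)).toNat % X ^ 2 :=
      congrArg Fin.val e2
    rw [e1] at e3
    have hqpos : (0 : ℤ) < (qq t0 : ℤ) := by exact_mod_cast hq3.pos
    have hlt : ∀ x : ℤ, (x % (qq t0 : ℤ)).toNat < X ^ 2 := by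
      intro x
      have g1 := Int.emod_lt_of_pos x hqpos
      have g2 := Int.emod_nonneg x hqpos.ne'
      omega
    rw [Nat.mod_eq_of_lt (hlt _), Nat.mod_eq_of_lt (hlt _)] at e3
    have g2 := Int.emod_nonneg (s' t i) hqpos.ne'
    have g3 := Int.emod_nonneg (s' t0 i) hqpos.ne'
    have e4 : s' t i % (qq t0 : ℤ) = s' t0 i % (qq t0 : ℤ) := by omega
    exact (Int.ModEq.symm e4).dvd
  obtain ⟨c, hc1, hc2, hc3⟩ := clsV (by omega) hI1 hρ hIX hW (by omega) hY hYX hq3 hq4 F g (s' t0)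
    (s' '' {t | t ∈ T ∧ G t = G t0}) hq2
    (by
      rintro _ ⟨t, ⟨ht1, ht2⟩, rfl⟩ i
      exact hres t ht1 ht2 i)
    (by
      rintro _ ⟨t, ⟨ht1, ht2⟩, rfl⟩
      obtain ⟨g1, g2, g3, -⟩ := hT t ht1
      exact ⟨g1, g2, g3⟩)
  refine ⟨fun e l => c (e, l), ?_, fun e l => (hc2 (e, l)).trans ?_, fun t ht l => ?_⟩
  · intro h
    apply hc1
    funext e
    exact congrFun (congrFun h e.1) e.2
  · have g1 : (qq t0) ^ ρ ≤ X ^ (2 * (k * d + 3) * I * W) := by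
      calc (qq t0) ^ ρ ≤ (X ^ 2) ^ ρ := Nat.pow_le_pow_left hq5 _
        _ = X ^ (2 * ρ) := by rw [← pow_mul]
        _ ≤ _ := by
            apply Nat.pow_le_pow_right (by omega)
            rw [hρ]
            have : 2 * (k * d + 3) * I * W = 2 * ((k * d + 1) * (I * W) + 2 * (I * W)) := by ring
            rw [this]
            omega
    exact_mod_cast g1
  · rw [Finset.mem_filter] at ht
    have := hc3 (s' t) ⟨t, ht, rfl⟩ l
    rw [Fintype.sum_prod_type] at this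
    exact this

end Pool.Agent.N273.HC
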